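import Pool.Agent.H243Z.WC.Ext

set_option autoImplicit false

open ExteriorAlgebra TensorProduct

noncomputable section

namespace Pool.Agent.H243Z.WC

section Lin

variable {L : Type} [AddCommGroup L] [Module ℂ L]

/-- the wedge of a list -/
def wl (l : List L) : ExteriorAlgebra ℂ L := (l.map (ι ℂ)).prod

theorem wl_nil : wl ([] : List L) = 1 := rfl

theorem wl_cons (a : L) (l : List L) : wl (a :: l) = ι ℂ a * wl l := by simp [wl]

theorem wl_ofFn {n : ℕ} (v : Fin n → L) : wl (List.ofFn v) = ιMulti ℂ n v := by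
  rw [ιMulti_apply, wl, List.map_ofFn]; rfl

theorem wl_mem (l : List L) : wl l ∈ Ev L (l.length : ZMod 2) := by
  induction l with
  | nil => exact (SetLike.one_mem_graded (Ev L) : 1 ∈ Ev L 0)
  | cons a l ih =>
    rw [wl_cons, List.length_cons, Nat.cast_succ, add_comm]
    exact SetLike.mul_mem_graded (ι_mem a) ih

theorem ct_wl (d : Module.Dual ℂ L) (l : List L) (h : ∀ a ∈ l, d a = 0) : ct d (wl l) = 0 := by
  induction l with
  | nil => exact ct_one d
  | cons a l ih =>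
    rw [wl_cons, ct_ι_mul, h a List.mem_cons_self, ih fun b hb => h b (List.mem_cons_of_mem _ hb)]
    simp

theorem eps_wl (l : List L) (h : l ≠ []) : (algebraMapInv (wl l) : ℂ) = 0 := by
  cases l with
  | nil => exact absurd rfl h
  | cons a l => rw [wl_cons, map_mul, eps_ι, zero_mul]

/-- the span of `u ⊗ a₁ ∧ ⋯ ∧ aₖ`, `k ≥ 1`, `aᵢ ∈ A` -/
def NN (A : Set L) : Submodule ℂ (Ev L ᵍ⊗[ℂ] Ev L) :=
  Submodule.span ℂ {z | ∃ (i : ZMod 2) (u : ExteriorAlgebra ℂ L) (m : List L), u ∈ Ev L i ∧ m ≠ [] ∧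
    (∀ a ∈ m, a ∈ A) ∧ z = u ᵍ⊗ₜ[ℂ] wl m}

theorem units_smul_mem {M : Type} [AddCommGroup M] [Module ℂ M] (S : Submodule ℂ M) (e : ℤˣ)
    {x : M} (h : x ∈ S) : e • x ∈ S := by
  rcases Int.units_eq_one_or e with rfl | rfl
  · rwa [one_smul]
  · rw [Units.neg_smul, one_smul]; exact S.neg_mem h

theorem cop_mul_mem {A : Set L} {a : L} (ha : a ∈ A) {z : Ev L ᵍ⊗[ℂ] Ev L} (hz : z ∈ NN A) :
    cop (ι ℂ a) * z ∈ NN A := by
  induction hz using Submodule.span_induction with
  | mem z h =>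
    obtain ⟨i, u, m, hu, hm, hA, rfl⟩ := h
    rw [cop_ι, add_mul, left_mul_tmul _ hu, right_mul_tmul _ hu, ← wl_cons]
    refine add_mem (Submodule.subset_span ⟨1 + i, _, m, SetLike.mul_mem_graded (ι_mem a) hu, hm,
      hA, rfl⟩) (units_smul_mem _ _ (Submodule.subset_span ⟨i, u, a :: m, hu, by simp, ?_, rfl⟩))
    intro b hb
    rcases List.mem_cons.1 hb with rfl | hb
    · exact ha
    · exact hA b hb
  | zero => rw [mul_zero]; exact zero_mem _
  | add x y _ _ hx hy => rw [mul_add]; exact add_mem hx hy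
  | smul c x _ hx => rw [mul_smul_comm]; exact Submodule.smul_mem _ _ hx

theorem cop_wl {A : Set L} (l : List L) (h : ∀ a ∈ l, a ∈ A) :
    cop (wl l) - wl l ᵍ⊗ₜ[ℂ] 1 ∈ NN A := by
  induction l with
  | nil =>
    rw [wl_nil, map_one]
    exact (sub_self (1 : Ev L ᵍ⊗[ℂ] Ev L)).symm ▸ zero_mem _
  | cons a l ih =>
    have ha := h a List.mem_cons_self
    have e : cop (wl (a :: l)) - wl (a :: l) ᵍ⊗ₜ[ℂ] 1 =
        cop (ι ℂ a) * (cop (wl l) - wl l ᵍ⊗ₜ[ℂ] 1) +
          (-1 : ℤˣ) ^ (l.length : ZMod 2) • (wl l ᵍ⊗ₜ[ℂ] wl [a]) := by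
      rw [wl_cons, map_mul, mul_sub, cop_ι a, add_mul _ _ (wl l ᵍ⊗ₜ[ℂ] 1),
        left_mul_tmul _ (wl_mem l), right_mul_tmul _ (wl_mem l), wl_cons, wl_nil]
      abel
    rw [e]
    exact add_mem (cop_mul_mem ha (ih fun b hb => h b (List.mem_cons_of_mem _ hb)))
      (units_smul_mem _ _ (Submodule.subset_span ⟨_, _, [a], wl_mem l, by simp, by simpa, rfl⟩))

theorem proj_wl (m : List L) : GradedAlgebra.proj (Ev L) 0 (wl m) = wl m ∨
    GradedAlgebra.proj (Ev L) 0 (wl m) = 0 := by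
  by_cases h : (m.length : ZMod 2) = 0
  · exact Or.inl (DirectSum.decompose_of_mem_same (Ev L) (h ▸ wl_mem m))
  · exact Or.inr (DirectSum.decompose_of_mem_ne (Ev L) (wl_mem m) h)

/-- derivative of a wedge along a quadratic curve -/
theorem hasDerivAt_wl (f : L →ₗ[ℂ] L) (c : L → L) (l : List L) :
    ∀ φ : ExteriorAlgebra ℂ L →ₗ[ℂ] ℂ,
      HasDerivAt (fun t : ℂ => φ (wl (l.map fun a => a + t • f a + (t * t) • c a)))
        (φ (der f (wl l))) 0 := by
  induction l with
  | nil =>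
    intro φ
    simp only [List.map_nil, wl_nil, der_one, map_zero]
    exact hasDerivAt_const _ _
  | cons a l ih =>
    intro φ
    have h1 := ih (φ ∘ₗ LinearMap.mulLeft ℂ (ι ℂ a))
    have h2 := (hasDerivAt_id (0 : ℂ)).mul (ih (φ ∘ₗ LinearMap.mulLeft ℂ (ι ℂ (f a))))
    have h3 := ((hasDerivAt_id (0 : ℂ)).mul (hasDerivAt_id (0 : ℂ))).mul
      (ih (φ ∘ₗ LinearMap.mulLeft ℂ (ι ℂ (c a))))
    refine (((h1.add h2).add h3).congr_deriv ?_).congr_of_eventuallyEq
      (Filter.Eventually.of_forall fun t => ?_)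
    · simp [wl_cons, der_mul, der_ι, add_comm]
    · simp [wl_cons, add_mul]

end Lin

section Lie

variable {L : Type} [LieRing L] [LieAlgebra ℂ L]

theorem kf_lie (a x y : L) : killingForm ℂ L ⁅a, x⁆ y = killingForm ℂ L a ⁅x, y⁆ :=
  LieModule.traceForm_apply_lie_apply ℂ L L a x y

theorem kf_comm (x y : L) : killingForm ℂ L x y = killingForm ℂ L y x :=
  LieModule.traceForm_comm ℂ L L x y

variable {n : ℕ} (b b' : Module.Basis (Fin n) ℂ L)

/-- the element `s(x)` -/
def sEl (x : L) : ExteriorAlgebra ℂ L := (1 / 2 : ℂ) • ∑ i, ι ℂ (b i) * ι ℂ ⁅b' i, x⁆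

variable {b b'}

theorem expand (hd : ∀ i j, killingForm ℂ L (b i) (b' j) = if i = j then 1 else 0) (a : L) :
    ∑ i, killingForm ℂ L (b i) a • b' i = a := by
  conv_rhs => rw [← b'.sum_repr a]
  refine Finset.sum_congr rfl fun i _ => ?_
  congr 1
  conv_lhs => rw [← b'.sum_repr a]
  rw [map_sum]
  simp [hd]

theorem expand' (hd : ∀ i j, killingForm ℂ L (b i) (b' j) = if i = j then 1 else 0) (a : L) :
    ∑ i, killingForm ℂ L (b' i) a • b i = a := by
  conv_rhs => rw [← b.sum_repr a]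
  refine Finset.sum_congr rfl fun i _ => ?_
  congr 1
  conv_lhs => rw [← b.sum_repr a]
  rw [map_sum]
  simp only [map_smul, kf_comm (b' i)]
  simp [hd]

theorem contr_sEl (x : L) (w : ExteriorAlgebra ℂ L) :
    contr (killingForm ℂ L) (rev (sEl b b' x)) w =
      (1 / 2 : ℂ) • ∑ i, ct (killingForm ℂ L ⁅b' i, x⁆) (ct (killingForm ℂ L (b i)) w) := by
  simp only [sEl, map_smul, map_sum, rev_mul, rev_ι, map_mul, contr_ι, LinearMap.smul_apply,
    LinearMap.sum_apply, Module.End.mul_apply]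

theorem contr_sEl_ι_mul (hd : ∀ i j, killingForm ℂ L (b i) (b' j) = if i = j then 1 else 0)
    (x a : L) (w : ExteriorAlgebra ℂ L) :
    contr (killingForm ℂ L) (rev (sEl b b' x)) (ι ℂ a * w) =
      ι ℂ a * contr (killingForm ℂ L) (rev (sEl b b' x)) w + ct (killingForm ℂ L ⁅a, x⁆) w := by
  have e1 : ∑ i, killingForm ℂ L (b i) a • ct (killingForm ℂ L ⁅b' i, x⁆) w =
      ct (killingForm ℂ L ⁅a, x⁆) w := by
    conv_rhs => rw [← expand hd a]
    simp only [sum_lie, smul_lie, map_sum, map_smul, LinearMap.sum_apply, LinearMap.smul_apply]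
  have e2 : ∑ i, killingForm ℂ L ⁅b' i, x⁆ a • ct (killingForm ℂ L (b i)) w =
      -ct (killingForm ℂ L ⁅a, x⁆) w := by
    rw [← lie_skew a x, map_neg, map_neg, LinearMap.neg_apply, neg_neg]
    conv_rhs => rw [← expand' hd ⁅x, a⁆]
    simp only [kf_lie, map_sum, map_smul, LinearMap.sum_apply, LinearMap.smul_apply]
  rw [contr_sEl, contr_sEl]
  simp only [ct_ι_mul, map_sub, map_smul, Finset.sum_sub_distrib, e1, e2, mul_smul_comm,
    Finset.mul_sum]
  module

theorem contr_sEl_wl (hd : ∀ i j, killingForm ℂ L (b i) (b' j) = if i = j then 1 else 0)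
    (x : L) (l : List L) (h : ∀ a ∈ l, ∀ c ∈ l, ⁅a, c⁆ = 0) :
    contr (killingForm ℂ L) (rev (sEl b b' x)) (wl l) = 0 := by
  induction l with
  | nil => rw [contr_sEl, wl_nil]; simp [ct_one]
  | cons a l ih =>
    rw [wl_cons, contr_sEl_ι_mul hd, ih fun a ha c hc => h a (List.mem_cons_of_mem _ ha) c
      (List.mem_cons_of_mem _ hc), ct_wl, mul_zero, add_zero]
    intro c hc
    rw [← lie_skew a x, map_neg, LinearMap.neg_apply, kf_lie,
      h a List.mem_cons_self c (List.mem_cons_of_mem _ hc), map_zero, neg_zero]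

theorem sEl_center (x : L) : sEl b b' x ∈ Subalgebra.center ℂ (ExteriorAlgebra ℂ L) := by
  refine Subalgebra.smul_mem _ (Subalgebra.sum_mem _ fun i _ => ?_) _
  rw [Subalgebra.mem_center_iff]
  intro w
  generalize b i = u
  generalize ⁅b' i, x⁆ = v
  induction w using left_ind with
  | h1 => simp
  | hs c w h => rw [smul_mul_assoc, mul_smul_comm, h]
  | ha u w hu hw => rw [add_mul, mul_add, hu, hw]
  | hι a w h =>
    rw [mul_assoc, h, ← mul_assoc, ← mul_assoc, ← mul_assoc]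
    congr 1
    have e1 := eq_neg_of_add_eq_zero_left (ι_add_mul_swap (R := ℂ) a u)
    have e2 := eq_neg_of_add_eq_zero_left (ι_add_mul_swap (R := ℂ) a v)
    rw [e1, neg_mul, mul_assoc, e2, mul_neg, neg_neg, mul_assoc]

variable (b b') in
/-- the map `τ` -/
def tau (H : LieSubalgebra ℂ L) : SymmetricAlgebra ℂ H →ₐ[ℂ] ExteriorAlgebra ℂ L :=
  (Subalgebra.center ℂ (ExteriorAlgebra ℂ L)).val.comp (SymmetricAlgebra.lift
    { toFun := fun h => ⟨sEl b b' h, sEl_center _⟩
      map_add' := fun x y => Subtype.ext (by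
        simp [sEl, mul_add, Finset.sum_add_distrib])
      map_smul' := fun c x => Subtype.ext (by
        simp [sEl, ← Finset.smul_sum, smul_comm c]) })

theorem tau_ι (H : LieSubalgebra ℂ L) (h : H) :
    tau b b' H (SymmetricAlgebra.ι ℂ H h) = sEl b b' h := by
  simp [tau]

theorem contr_tau_wl (hd : ∀ i j, killingForm ℂ L (b i) (b' j) = if i = j then 1 else 0)
    (H : LieSubalgebra ℂ L) (l : List L) (h : ∀ a ∈ l, ∀ c ∈ l, ⁅a, c⁆ = 0)
    (P : SymmetricAlgebra ℂ H) :
    ∃ c : ℂ, contr (killingForm ℂ L) (rev (tau b b' H P)) (wl l) = c • wl l := by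
  induction P using SymmetricAlgebra.induction with
  | algebraMap r =>
    refine ⟨r, ?_⟩
    rw [AlgHom.commutes, rev_algebraMap, AlgHom.commutes]
    rfl
  | ι x => exact ⟨0, by rw [tau_ι, contr_sEl_wl hd _ l h, zero_smul]⟩
  | mul P Q hP hQ =>
    obtain ⟨c, hc⟩ := hP
    obtain ⟨d, hd⟩ := hQ
    exact ⟨c * d, by rw [map_mul, rev_mul, map_mul, Module.End.mul_apply, hc, map_smul, hd,
      smul_smul]⟩
  | add P Q hP hQ =>
    obtain ⟨c, hc⟩ := hP
    obtain ⟨d, hd⟩ := hQ
    exact ⟨c + d, by rw [map_add, map_add, map_add, LinearMap.add_apply, hc, hd, add_smul]⟩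

theorem pair_tau_wl (hd : ∀ i j, killingForm ℂ L (b i) (b' j) = if i = j then 1 else 0)
    (H : LieSubalgebra ℂ L) (l : List L) (h : ∀ a ∈ l, ∀ c ∈ l, ⁅a, c⁆ = 0) (hl : l ≠ [])
    (P : SymmetricAlgebra ℂ H) : pair (killingForm ℂ L) (tau b b' H P) (wl l) = 0 := by
  obtain ⟨c, hc⟩ := contr_tau_wl hd H l h P
  rw [pair_apply, hc, map_smul, eps_wl l hl, smul_zero]

/-- the span of wedges of `k` pairwise commuting elements -/
def KK (L : Type) [LieRing L] [LieAlgebra ℂ L] (k : ℕ) : Submodule ℂ (ExteriorAlgebra ℂ L) :=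
  Submodule.span ℂ {w | ∃ v : Fin k → L, (∀ i j, ⁅v i, v j⁆ = 0) ∧ w = ιMulti ℂ k v}

theorem KK_le (k : ℕ) : KK L k ≤ ⋀[ℂ]^k L := by
  refine Submodule.span_le.2 ?_
  rintro _ ⟨v, -, rfl⟩
  exact ιMulti_range ℂ k ⟨v, rfl⟩

theorem der_mem_KK (k : ℕ) (f : L →ₗ[ℂ] L) (c : L → L)
    (h : ∀ (t : ℂ) (a a' : L), ⁅a, a'⁆ = 0 →
      ⁅a + t • f a + (t * t) • c a, a' + t • f a' + (t * t) • c a'⁆ = 0)
    {w : ExteriorAlgebra ℂ L} (hw : w ∈ KK L k) : der f w ∈ KK L k := by
  induction hw using Submodule.span_induction with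
  | mem w hw =>
    obtain ⟨v, hv, rfl⟩ := hw
    by_contra hc
    obtain ⟨φ, h1, h2⟩ := Submodule.exists_le_ker_of_notMem hc
    have h3 := hasDerivAt_wl f c (List.ofFn v) φ
    have h4 : (fun t : ℂ => φ (wl ((List.ofFn v).map fun a => a + t • f a + (t * t) • c a))) =
        fun _ => 0 := by
      ext t
      rw [List.map_ofFn, wl_ofFn]
      exact h2 (Submodule.subset_span ⟨_, fun i j => h t _ _ (hv i j), rfl⟩)
    rw [h4, wl_ofFn] at h3
    exact h1 (h3.unique (hasDerivAt_const _ _))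
  | zero => rw [map_zero]; exact zero_mem _
  | add x y _ _ hx hy => rw [map_add]; exact add_mem hx hy
  | smul c x _ hx => rw [map_smul]; exact Submodule.smul_mem _ _ hx

/-- vanishing of `Φ` -/
theorem phi_KK (hd : ∀ i j, killingForm ℂ L (b i) (b' j) = if i = j then 1 else 0)
    (H : LieSubalgebra ℂ L) [Module.Finite ℂ H] {k : ℕ} (hk : Module.finrank ℂ H < k)
    (q : L →ₗ[ℂ] H) {M : Type} [AddCommGroup M] [Module ℂ M] (φ : ExteriorAlgebra ℂ L →ₗ[ℂ] M)
    (hφ : ∀ y, (∀ P, pair (killingForm ℂ L) (tau b b' H P) y = 0) → φ y = 0)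
    {w : ExteriorAlgebra ℂ L} (hw : w ∈ KK L k) :
    TensorProduct.map (ExteriorAlgebra.map q).toLinearMap φ
      (TensorProduct.map LinearMap.id (GradedAlgebra.proj (Ev L) 0)
        ((GradedTensorProduct.of ℂ (Ev L) (Ev L)).symm (cop w))) = 0 := by
  induction hw using Submodule.span_induction with
  | mem w hw =>
    obtain ⟨v, hv, rfl⟩ := hw
    have h1 := cop_wl (A := Set.range v) (List.ofFn v) (fun a ha => (List.mem_ofFn' _ _).1 ha)
    have h2 : ∀ z ∈ NN (Set.range v), TensorProduct.map (ExteriorAlgebra.map q).toLinearMap φ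
        (TensorProduct.map LinearMap.id (GradedAlgebra.proj (Ev L) 0)
          ((GradedTensorProduct.of ℂ (Ev L) (Ev L)).symm z)) = 0 := by
      intro z hz
      induction hz using Submodule.span_induction with
      | mem z hz =>
        obtain ⟨i, u, m, hu, hm, hA, rfl⟩ := hz
        rw [GradedTensorProduct.tmul, GradedTensorProduct.of_symm_of, map_tmul, map_tmul]
        rcases proj_wl m with e | e
        · rw [e, hφ _ fun P => pair_tau_wl hd H m ?_ hm P, tmul_zero]
          intro a ha c hc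
          obtain ⟨i, rfl⟩ := hA a ha
          obtain ⟨j, rfl⟩ := hA c hc
          exact hv i j
        · rw [e, map_zero, tmul_zero]
      | zero => simp only [map_zero]
      | add x y _ _ hx hy => simp only [map_add, hx, hy, add_zero]
      | smul c x _ hx => simp only [map_smul, hx, smul_zero]
    have h3 := h2 _ h1
    rw [wl_ofFn, map_sub, map_sub, map_sub, GradedTensorProduct.tmul,
      GradedTensorProduct.of_symm_of, map_tmul, map_tmul] at h3
    have h4 : (ExteriorAlgebra.map q).toLinearMap (LinearMap.id (R := ℂ) (ιMulti ℂ k v)) = 0 := by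
      change ExteriorAlgebra.map q (ιMulti ℂ k v) = 0
      rw [map_apply_ιMulti]
      refine AlternatingMap.map_linearDependent _ _ fun hli => ?_
      have := hli.fintype_card_le_finrank
      rw [Fintype.card_fin] at this
      omega
    rwa [h4, zero_tmul, sub_zero] at h3
  | zero => simp only [map_zero]
  | add x y _ _ hx hy => simp only [map_add, hx, hy, add_zero]
  | smul c x _ hx => simp only [map_smul, hx, smul_zero]

end Lie

end Pool.Agent.H243Z.WC
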