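import Mathlib

set_option autoImplicit false

open ExteriorAlgebra TensorProduct

noncomputable section

namespace Pool.Agent.H243Z.WC

variable {L : Type} [AddCommGroup L] [Module ℂ L]

/-- contraction with a linear form -/
def ct : Module.Dual ℂ L →ₗ[ℂ] ExteriorAlgebra ℂ L →ₗ[ℂ] ExteriorAlgebra ℂ L :=
  CliffordAlgebra.contractLeft (Q := (0 : QuadraticForm ℂ L))

theorem ct_ι_mul (d : Module.Dual ℂ L) (a : L) (w : ExteriorAlgebra ℂ L) :
    ct d (ι ℂ a * w) = d a • w - ι ℂ a * ct d w :=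
  CliffordAlgebra.contractLeft_ι_mul d a w

theorem ct_one (d : Module.Dual ℂ L) : ct d (1 : ExteriorAlgebra ℂ L) = 0 :=
  CliffordAlgebra.contractLeft_one _ d

theorem ct_ct (d : Module.Dual ℂ L) (w : ExteriorAlgebra ℂ L) : ct d (ct d w) = 0 :=
  CliffordAlgebra.contractLeft_contractLeft d w

theorem ct_ιMulti (d : Module.Dual ℂ L) (k : ℕ) (y : Fin (k + 1) → L) :
    ct d (ιMulti ℂ (k + 1) y) =
      ∑ j : Fin (k + 1), ((-1 : ℂ) ^ (j : ℕ) * d (y j)) • ιMulti ℂ k (y ∘ j.succAbove) := by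
  induction k with
  | zero =>
    rw [ιMulti_succ_apply, ct_ι_mul, ιMulti_zero_apply, ct_one]
    simp
  | succ k ih =>
    rw [ιMulti_succ_apply, ct_ι_mul, ih, Fin.sum_univ_succ (n := k + 1), Finset.mul_sum,
      sub_eq_add_neg, ← Finset.sum_neg_distrib]
    congr 1
    · simp [Matrix.vecTail]
    · refine Finset.sum_congr rfl fun j _ => ?_
      rw [ιMulti_succ_apply, mul_smul_comm, ← neg_smul]
      congr 1
      · simp [Matrix.vecTail, pow_succ]
      · congr 2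
        ext i
        simp [Matrix.vecTail, Fin.succ_succAbove_succ]

/-- iterated contraction -/
def contr (B : LinearMap.BilinForm ℂ L) :
    ExteriorAlgebra ℂ L →ₐ[ℂ] Module.End ℂ (ExteriorAlgebra ℂ L) :=
  lift ℂ ⟨ct ∘ₗ B, fun _ => LinearMap.ext fun w => ct_ct _ w⟩

theorem contr_ι (B : LinearMap.BilinForm ℂ L) (x : L) : contr B (ι ℂ x) = ct (B x) := by
  simp [contr]

/-- reversal -/
def rev : ExteriorAlgebra ℂ L →ₗ[ℂ] ExteriorAlgebra ℂ L :=
  CliffordAlgebra.reverse (Q := (0 : QuadraticForm ℂ L))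

theorem rev_ι (x : L) : rev (ι ℂ x) = ι ℂ x := CliffordAlgebra.reverse_ι x

theorem rev_mul (a b : ExteriorAlgebra ℂ L) : rev (a * b) = rev b * rev a :=
  CliffordAlgebra.reverse.map_mul a b

theorem rev_algebraMap (r : ℂ) : rev (algebraMap ℂ (ExteriorAlgebra ℂ L) r) = algebraMap ℂ _ r :=
  CliffordAlgebra.reverse.commutes r

theorem rev_one : rev (1 : ExteriorAlgebra ℂ L) = 1 := CliffordAlgebra.reverse.map_one

/-- the pairing on the exterior algebra -/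
def pair (B : LinearMap.BilinForm ℂ L) : LinearMap.BilinForm ℂ (ExteriorAlgebra ℂ L) :=
  ((contr B).toLinearMap ∘ₗ rev).compr₂ (algebraMapInv : ExteriorAlgebra ℂ L →ₐ[ℂ] ℂ).toLinearMap

theorem pair_apply (B : LinearMap.BilinForm ℂ L) (u w : ExteriorAlgebra ℂ L) :
    pair B u w = algebraMapInv (contr B (rev u) w) := rfl

theorem pair_one (B : LinearMap.BilinForm ℂ L) (w : ExteriorAlgebra ℂ L) :
    pair B 1 w = algebraMapInv w := by
  rw [pair_apply, rev_one, map_one]; rfl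

theorem pair_ι_mul (B : LinearMap.BilinForm ℂ L) (x : L) (u w : ExteriorAlgebra ℂ L) :
    pair B (ι ℂ x * u) w = pair B u (ct (B x) w) := by
  rw [pair_apply, pair_apply, rev_mul, map_mul, rev_ι, contr_ι]; rfl

theorem eps_ι (x : L) : (algebraMapInv (ι ℂ x) : ℂ) = 0 := by simp [algebraMapInv]

theorem pair_det (B : LinearMap.BilinForm ℂ L) (k : ℕ) (x y : Fin k → L) :
    pair B (ιMulti ℂ k x) (ιMulti ℂ k y) = (Matrix.of fun i j => B (x i) (y j)).det := by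
  induction k with
  | zero => simp [pair_one]
  | succ k ih =>
    rw [ιMulti_succ_apply x, pair_ι_mul, ct_ιMulti, map_sum, Matrix.det_succ_row_zero]
    refine Finset.sum_congr rfl fun j _ => ?_
    rw [map_smul, ih, smul_eq_mul]
    rfl

theorem pair_ne (B : LinearMap.BilinForm ℂ L) (k : ℕ) : ∀ (l : ℕ) (x : Fin k → L) (y : Fin l → L),
    k ≠ l → pair B (ιMulti ℂ k x) (ιMulti ℂ l y) = 0 := by
  induction k with
  | zero =>
    intro l x y h
    obtain ⟨l, rfl⟩ := Nat.exists_eq_succ_of_ne_zero h.symm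
    rw [ιMulti_zero_apply, pair_one, ιMulti_succ_apply, map_mul, eps_ι, zero_mul]
  | succ k ih =>
    intro l x y h
    rw [ιMulti_succ_apply x, pair_ι_mul]
    cases l with
    | zero => rw [ιMulti_zero_apply, ct_one, map_zero]
    | succ l =>
      rw [ct_ιMulti, map_sum]
      refine Finset.sum_eq_zero fun j _ => ?_
      rw [map_smul, ih l _ _ (fun e => h (by rw [e])), smul_zero]

/-- the derivation extending an endomorphism -/
def derAux (f : L →ₗ[ℂ] L) :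
    ExteriorAlgebra ℂ L →ₐ[ℂ] TrivSqZeroExt (ExteriorAlgebra ℂ L) (ExteriorAlgebra ℂ L) :=
  lift ℂ ⟨{ toFun := fun a => (ι ℂ a, ι ℂ (f a))
            map_add' := fun a b => by rw [map_add, map_add, map_add]; rfl
            map_smul' := fun c a => by rw [map_smul, map_smul, map_smul]; rfl }, fun a => by
    refine TrivSqZeroExt.ext ?_ ?_
    · exact ι_sq_zero a
    · exact ι_add_mul_swap a (f a)⟩

theorem derAux_ι (f : L →ₗ[ℂ] L) (a : L) : derAux f (ι ℂ a) = (ι ℂ a, ι ℂ (f a)) :=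
  lift_ι_apply _ _ _ _

theorem derAux_fst (f : L →ₗ[ℂ] L) (w : ExteriorAlgebra ℂ L) : (derAux f w).fst = w := by
  have : (TrivSqZeroExt.fstHom ℂ _ _).comp (derAux f) = AlgHom.id ℂ _ := by
    ext a
    simp [derAux_ι]
  exact DFunLike.congr_fun this w

def der (f : L →ₗ[ℂ] L) : ExteriorAlgebra ℂ L →ₗ[ℂ] ExteriorAlgebra ℂ L where
  toFun w := (derAux f w).snd
  map_add' a b := by rw [map_add]; rfl
  map_smul' c a := by rw [map_smul]; rfl

theorem der_ι (f : L →ₗ[ℂ] L) (a : L) : der f (ι ℂ a) = ι ℂ (f a) := by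
  change (derAux f (ι ℂ a)).snd = _
  rw [derAux_ι]; rfl

theorem der_mul (f : L →ₗ[ℂ] L) (u w : ExteriorAlgebra ℂ L) :
    der f (u * w) = der f u * w + u * der f w := by
  change (derAux f (u * w)).snd = _
  rw [map_mul, TrivSqZeroExt.snd_mul, derAux_fst, derAux_fst, add_comm]
  rfl

theorem der_one (f : L →ₗ[ℂ] L) : der f 1 = 0 := by
  change (derAux f 1).snd = _
  rw [map_one]; rfl

theorem left_ind {P : ExteriorAlgebra ℂ L → Prop} (h1 : P 1)
    (hs : ∀ (c : ℂ) w, P w → P (c • w)) (ha : ∀ u w, P u → P w → P (u + w))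
    (hι : ∀ a w, P w → P (ι ℂ a * w)) (w : ExteriorAlgebra ℂ L) : P w := by
  induction w using CliffordAlgebra.left_induction with
  | algebraMap r => rw [Algebra.algebraMap_eq_smul_one]; exact hs _ _ h1
  | add x y hx hy => exact ha _ _ hx hy
  | ι_mul x m hx => exact hι _ _ hx

theorem der_add (f g : L →ₗ[ℂ] L) : der (f + g) = der f + der g := by
  refine LinearMap.ext fun w => ?_
  induction w using left_ind with
  | h1 => simp [der_one]
  | hs c w h => rw [map_smul, map_smul, h]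
  | ha u w hu hw => rw [map_add, map_add, hu, hw]
  | hι a w h =>
    simp only [der_mul, der_ι, h, LinearMap.add_apply, map_add, add_mul, mul_add]
    abel

theorem der_smul (c : ℂ) (f : L →ₗ[ℂ] L) : der (c • f) = c • der f := by
  refine LinearMap.ext fun w => ?_
  induction w using left_ind with
  | h1 => simp [der_one]
  | hs c w h => rw [map_smul, map_smul, h]
  | ha u w hu hw => rw [map_add, map_add, hu, hw]
  | hι a w h =>
    simp only [der_mul, der_ι, h, LinearMap.smul_apply, map_smul, smul_add, smul_mul_assoc,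
      mul_smul_comm]

theorem der_lie (f g : L →ₗ[ℂ] L) (w : ExteriorAlgebra ℂ L) :
    der (f ∘ₗ g - g ∘ₗ f) w = der f (der g w) - der g (der f w) := by
  induction w using left_ind with
  | h1 => simp [der_one]
  | hs c w h => simp only [map_smul, h, smul_sub]
  | ha u w hu hw => simp only [map_add, hu, hw]; abel
  | hι a w h =>
    simp only [der_mul, der_ι, h, LinearMap.sub_apply, LinearMap.comp_apply, map_sub, map_add,
      sub_mul, mul_sub]
    abel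

/-- the parity grading -/
abbrev Ev (L : Type) [AddCommGroup L] [Module ℂ L] : ZMod 2 → Submodule ℂ (ExteriorAlgebra ℂ L) :=
  CliffordAlgebra.evenOdd (0 : QuadraticForm ℂ L)

theorem ι_mem (a : L) : ι ℂ a ∈ Ev L 1 := CliffordAlgebra.ι_mem_evenOdd_one _ a

theorem left_mul_tmul (a : ExteriorAlgebra ℂ L) {i : ZMod 2} {u : ExteriorAlgebra ℂ L}
    (hu : u ∈ Ev L i) (v : ExteriorAlgebra ℂ L) :
    (a ᵍ⊗ₜ[ℂ] 1 * u ᵍ⊗ₜ[ℂ] v : Ev L ᵍ⊗[ℂ] Ev L) = (a * u) ᵍ⊗ₜ[ℂ] v :=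
  GradedTensorProduct.tmul_one_mul_coe_tmul (Ev L) (Ev L) a ⟨u, hu⟩ v

theorem right_mul_tmul (a : L) {i : ZMod 2} {u : ExteriorAlgebra ℂ L}
    (hu : u ∈ Ev L i) (v : ExteriorAlgebra ℂ L) :
    (1 ᵍ⊗ₜ[ℂ] ι ℂ a * u ᵍ⊗ₜ[ℂ] v : Ev L ᵍ⊗[ℂ] Ev L) =
      (-1 : ℤˣ) ^ i • (u ᵍ⊗ₜ[ℂ] (ι ℂ a * v)) := by
  have := GradedTensorProduct.tmul_coe_mul_coe_tmul (Ev L) (Ev L) 1 ⟨_, ι_mem a⟩ ⟨u, hu⟩ v
  rw [one_mul, one_mul] at this
  exact this

/-- the coproduct -/
def cop : ExteriorAlgebra ℂ L →ₐ[ℂ] (Ev L ᵍ⊗[ℂ] Ev L) :=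
  lift ℂ ⟨(GradedTensorProduct.includeLeft (Ev L) (Ev L)).toLinearMap ∘ₗ ι ℂ +
    (GradedTensorProduct.includeRight (Ev L) (Ev L)).toLinearMap ∘ₗ ι ℂ, fun a => by
      have h1 : (1 : ExteriorAlgebra ℂ L) ∈ Ev L 0 := SetLike.one_mem_graded _
      change ((ι ℂ a ᵍ⊗ₜ[ℂ] 1 + 1 ᵍ⊗ₜ[ℂ] ι ℂ a) * (ι ℂ a ᵍ⊗ₜ[ℂ] 1 + 1 ᵍ⊗ₜ[ℂ] ι ℂ a) :
        Ev L ᵍ⊗[ℂ] Ev L) = 0
      rw [add_mul, mul_add, mul_add, left_mul_tmul _ (ι_mem a), left_mul_tmul _ h1,
        right_mul_tmul _ (ι_mem a), right_mul_tmul _ h1, ι_sq_zero]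
      simp [GradedTensorProduct.tmul]⟩

theorem cop_ι (a : L) : cop (ι ℂ a) = ι ℂ a ᵍ⊗ₜ[ℂ] 1 + 1 ᵍ⊗ₜ[ℂ] ι ℂ a :=
  lift_ι_apply _ _ _ _

end Pool.Agent.H243Z.WC
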