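import Pool.Agent.H243Z.WC.Comm

set_option autoImplicit false

open ExteriorAlgebra TensorProduct LieAlgebra.SpecialLinear

noncomputable section

namespace Pool.Agent.H243Z.WC

attribute [local instance 100] LieRing.ofAssociativeRing

abbrev SL4 : Type := sl (Fin 4) ℂ

theorem sl4_irred : LieModule.IsIrreducible ℂ SL4 (Fin 4 → ℂ) := by
  refine LieModule.IsIrreducible.mk fun N hN => ?_
  obtain ⟨v, hv, hv0⟩ := (Submodule.ne_bot_iff N.toSubmodule).1
    (fun e => hN ((LieSubmodule.toSubmodule_eq_bot N).1 e))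
  obtain ⟨j, hj⟩ := Function.ne_iff.1 hv0
  have step : ∀ (w : Fin 4 → ℂ) (i j : Fin 4), w ∈ N → w j ≠ 0 → i ≠ j → Pi.single i 1 ∈ N := by
    intro w i j hw hwj hij
    have := N.lie_mem (x := single i j hij (w j)⁻¹) hw
    have e : Pi.single i 1 = Matrix.mulVec (Matrix.single i j (w j)⁻¹) w := by
      rw [Matrix.single_mulVec, inv_mul_cancel₀ hwj]
      rfl
    rw [e]
    exact this
  have all : ∀ i, Pi.single i (1 : ℂ) ∈ N := by
    intro i
    by_cases h : i = j
    · obtain ⟨l, hl⟩ := exists_ne j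
      exact step _ i l (step v l j hv hj hl) (by simp) (h ▸ hl.symm)
    · exact step v i j hv hj h
  rw [eq_top_iff]
  intro w _
  rw [pi_eq_sum_univ' w]
  exact N.toSubmodule.sum_mem fun i _ => N.toSubmodule.smul_mem _ (all i)

theorem sl4_killing : LieAlgebra.IsKilling ℂ SL4 := by
  have := sl4_irred
  have : LieAlgebra.HasTrivialRadical ℂ SL4 :=
    LieAlgebra.hasTrivialRadical_of_isIrreducible_of_isFaithful ℂ SL4 (Fin 4 → ℂ) fun x => by
      have : LieModule.toEnd ℂ SL4 (Fin 4 → ℂ) x = Matrix.toLin' x.1 := rfl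
      rw [this, Matrix.trace_toLin'_eq]
      exact x.2
  infer_instance

theorem diag_comm {x y : SL4} (hx : x.1.IsDiag) (hy : y.1.IsDiag) : ⁅x, y⁆ = 0 := by
  apply Subtype.ext
  rw [sl_bracket, ← hx.diagonal_diag, ← hy.diagonal_diag, Matrix.diagonal_mul_diagonal,
    Matrix.diagonal_mul_diagonal]
  simp [mul_comm]

/-- the diagonal Cartan subalgebra -/
def HH : LieSubalgebra ℂ SL4 where
  carrier := {x | x.1.IsDiag}
  add_mem' := fun hx hy => hx.add hy
  zero_mem' := Matrix.isDiag_zero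
  smul_mem' := fun c _ hx => hx.smul c
  lie_mem' := fun hx hy => by
    rw [Set.mem_ofPred_eq, diag_comm hx hy]
    exact Matrix.isDiag_zero

theorem HH_cartan : HH.IsCartanSubalgebra := by
  have : IsLieAbelian HH := ⟨fun x y => Subtype.ext (diag_comm x.2 y.2)⟩
  refine ⟨inferInstance, le_antisymm (fun x hx => ?_) HH.le_normalizer⟩
  let d : SL4 := ⟨Matrix.diagonal ![3, 1, -1, -3], by
    change Matrix.trace (Matrix.diagonal ![3, 1, -1, -3] : Matrix (Fin 4) (Fin 4) ℂ) = 0
    simp [Fin.sum_univ_four]⟩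
  have h := (HH.mem_normalizer_iff x).1 hx d (Matrix.isDiag_diagonal _)
  intro i j hij
  have h' : (⁅x, d⁆ : SL4).1 i j = 0 := h hij
  rw [sl_bracket, Matrix.sub_apply, Matrix.mul_diagonal, Matrix.diagonal_mul, mul_comm,
    ← sub_mul] at h'
  refine (mul_eq_zero.1 h').resolve_left ?_
  fin_cases i <;> fin_cases j <;> first | exact absurd rfl hij | norm_num

theorem HH_finrank : Module.finrank ℂ HH < 4 := by
  let f : HH →ₗ[ℂ] (Fin 3 → ℂ) :=
    { toFun := fun x i => x.1.1 i.succ i.succ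
      map_add' := fun _ _ => rfl
      map_smul' := fun _ _ => rfl }
  have hf : Function.Injective f := by
    rw [injective_iff_map_eq_zero]
    intro x hx
    have h1 : x.1.1 1 1 = 0 := congrFun hx 0
    have h2 : x.1.1 2 2 = 0 := congrFun hx 1
    have h3 : x.1.1 3 3 = 0 := congrFun hx 2
    have h0 : Matrix.trace x.1.1 = 0 := x.1.2
    rw [Matrix.trace, Fin.sum_univ_four] at h0
    simp only [Matrix.diag_apply, h1, h2, h3, add_zero] at h0
    ext i j
    by_cases hij : i = j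
    · subst hij
      fin_cases i <;> assumption
    · exact x.2 hij
  have := LinearMap.finrank_le_finrank_of_injective hf
  simp only [Module.finrank_fintype_fun_eq_card, Fintype.card_fin] at this
  omega

/-- the action on the exterior algebra -/
def rho (L : Type) [LieRing L] [LieAlgebra ℂ L] :
    L →ₗ⁅ℂ⁆ Module.End ℂ (ExteriorAlgebra ℂ L) where
  toFun x := der (LieAlgebra.ad ℂ L x)
  map_add' x y := by rw [map_add, der_add]
  map_smul' c x := by rw [map_smul, der_smul]; rfl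
  map_lie' := fun {x y} => LinearMap.ext fun w => by
    rw [LieHom.map_lie]
    exact der_lie _ _ w

theorem sqzero_mem (k : ℕ) (y : SL4) (hy : y.1 * y.1 = 0) {w : ExteriorAlgebra ℂ SL4}
    (hw : w ∈ KK SL4 k) : rho SL4 y w ∈ KK SL4 k := by
  refine der_mem_KK k _ (fun a => (1 / 2 : ℂ) • ⁅y, ⁅y, a⁆⁆) (fun t a a' h => ?_) hw
  have key : ∀ a : SL4, (a + t • LieAlgebra.ad ℂ SL4 y a + (t * t) • (1 / 2 : ℂ) • ⁅y, ⁅y, a⁆⁆).1 =
      (1 + t • y.1) * a.1 * (1 - t • y.1) := by
    intro a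
    change a.1 + t • (⁅y, a⁆ : SL4).1 + (t * t) • (1 / 2 : ℂ) • (⁅y, ⁅y, a⁆⁆ : SL4).1 = _
    simp only [sl_bracket, mul_sub, sub_mul, add_mul, mul_one, one_mul, smul_mul_assoc,
      mul_smul_comm, ← mul_assoc, hy, zero_mul, mul_assoc a.1 y.1 y.1, mul_zero]
    module
  have h0 : a.1 * a'.1 - a'.1 * a.1 = 0 := congrArg Subtype.val h
  have inv : (1 - t • y.1) * (1 + t • y.1) = 1 := by
    simp only [mul_add, sub_mul, mul_one, one_mul, smul_mul_assoc, mul_smul_comm, hy, smul_zero]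
    abel
  apply Subtype.ext
  rw [sl_bracket, key, key]
  have e : ∀ u v : Matrix (Fin 4) (Fin 4) ℂ, (1 + t • y.1) * u * (1 - t • y.1) *
      ((1 + t • y.1) * v * (1 - t • y.1)) = (1 + t • y.1) * (u * v) * (1 - t • y.1) := by
    intro u v
    simp only [mul_assoc]
    rw [← mul_assoc (1 - t • y.1), inv, one_mul]
  rw [e, e, ← sub_mul, ← mul_sub, h0, mul_zero, zero_mul]
  rfl

theorem all_mem (k : ℕ) (x : SL4) {w : ExteriorAlgebra ℂ SL4}
    (hw : w ∈ KK SL4 k) : rho SL4 x w ∈ KK SL4 k := by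
  let S : Submodule ℂ SL4 := (KK SL4 k).comap (LinearMap.flip (rho SL4).toLinearMap w)
  have hS : ∀ y : SL4, y.1 * y.1 = 0 → y ∈ S := fun y hy => sqzero_mem k y hy hw
  have h1 : ∀ i j (h : i ≠ j) (r : ℂ), single i j h r ∈ S := fun i j h r => hS _ (by
    rw [val_single, Matrix.single_mul_single_of_ne _ _ _ _ h.symm])
  have h2 : ∀ i (r : ℂ), singleSubSingle i (0 : Fin 4) r ∈ S := by
    intro i r
    by_cases h : i = 0
    · subst h
      have : singleSubSingle (0 : Fin 4) (0 : Fin 4) r = 0 := Subtype.ext (by simp)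
      rw [this]; exact zero_mem _
    have h3 := hS (singleSubSingle i 0 r + single i 0 h r - single 0 i (Ne.symm h) r) (by
      change (Matrix.single i i r - Matrix.single 0 0 r + Matrix.single i 0 r -
        Matrix.single 0 i r) * (Matrix.single i i r - Matrix.single 0 0 r + Matrix.single i 0 r -
        Matrix.single 0 i r) = 0
      simp [mul_add, add_mul, mul_sub, sub_mul, Matrix.single_mul_single_of_ne, h, Ne.symm h]
      abel)
    have := add_mem (sub_mem h3 (h1 i 0 h r)) (h1 0 i (Ne.symm h) r)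
    convert this using 1
    abel
  have hx : x = ∑ i, ∑ j, if h : i = j then singleSubSingle i (0 : Fin 4) (x.1 i i)
      else single i j h (x.1 i j) := by
    have h0 : Matrix.trace x.1 = 0 := x.2
    rw [Matrix.trace, Fin.sum_univ_four] at h0
    simp only [Matrix.diag_apply] at h0
    apply Subtype.ext
    ext a b
    fin_cases a <;> fin_cases b <;> simp [Fin.sum_univ_four]
    linear_combination h0
  change x ∈ S
  rw [hx]
  refine S.sum_mem fun i _ => S.sum_mem fun j _ => ?_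
  split_ifs with h
  · exact h2 _ _
  · exact h1 _ _ _ _

def v0 : Fin 4 → SL4 := ![single 0 2 (by decide) 1, single 0 3 (by decide) 1,
  single 1 2 (by decide) 1, single 1 3 (by decide) 1]

theorem v0_comm (i j : Fin 4) : ⁅v0 i, v0 j⁆ = 0 := by
  apply Subtype.ext
  rw [sl_bracket]
  fin_cases i <;> fin_cases j <;> simp [v0, Matrix.single_mul_single_of_ne]

theorem v0_ne : ιMulti ℂ 4 v0 ≠ 0 := by
  let B : LinearMap.BilinForm ℂ SL4 := LinearMap.mk₂ ℂ
    (fun x y => x.1 0 2 * y.1 0 2 + x.1 0 3 * y.1 0 3 + x.1 1 2 * y.1 1 2 + x.1 1 3 * y.1 1 3)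
    (fun _ _ _ => by simp; ring) (fun _ _ _ => by simp; ring) (fun _ _ _ => by simp; ring)
    (fun _ _ _ => by simp; ring)
  intro h
  have h1 := pair_det B 4 v0 v0
  have h2 : (Matrix.of fun i j => B (v0 i) (v0 j)) = 1 := by
    ext i j
    fin_cases i <;> fin_cases j <;> simp [B, v0]
  rw [h, h2] at h1
  simp at h1

theorem exists_irred : ∃ (V : Type) (_ : AddCommGroup V) (_ : Module ℂ V) (_ : LieRingModule SL4 V)
    (_ : LieModule ℂ SL4 V), Module.Finite ℂ V ∧ LieModule.IsIrreducible ℂ SL4 V ∧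
      ∃ f : V →ₗ[ℂ] ExteriorAlgebra ℂ SL4, f ≠ 0 ∧ (∀ (x : SL4) (v : V), f ⁅x, v⁆ = rho SL4 x (f v)) ∧
        ∀ v, f v ∈ KK SL4 4 := by
  let _ : LieRingModule SL4 (ExteriorAlgebra ℂ SL4) := LieRingModule.compLieHom _ (rho SL4)
  let _ : LieModule ℂ SL4 (ExteriorAlgebra ℂ SL4) := LieModule.compLieHom _ (rho SL4)
  let K : LieSubmodule ℂ SL4 (ExteriorAlgebra ℂ SL4) :=
    { KK SL4 4 with lie_mem := fun {x _} hw => all_mem 4 x hw }
  have hfin : Module.Finite ℂ K := Submodule.finiteDimensional_of_le (KK_le (L := SL4) 4)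
  have hnt : Nontrivial K := ⟨⟨⟨_, Submodule.subset_span ⟨v0, v0_comm, rfl⟩⟩, 0,
    fun e => v0_ne (congrArg Subtype.val e)⟩⟩
  obtain ⟨N, hN⟩ : ∃ N : LieSubmodule ℂ SL4 K, IsAtom N := IsAtomic.exists_atom _
  have hNt : Nontrivial N := (LieSubmodule.nontrivial_iff_ne_bot ℂ SL4 K).2 hN.1
  refine ⟨N, inferInstance, inferInstance, inferInstance, inferInstance, inferInstance,
    LieModule.IsIrreducible.mk fun N' hN' => ?_, K.toSubmodule.subtype ∘ₗ N.toSubmodule.subtype,
    fun e => ?_, fun x v => rfl, fun v => v.1.2⟩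
  · have h1 : N'.map N.incl ≤ N := LieSubmodule.map_incl_le
    have h2 : N'.map N.incl ≠ ⊥ := by
      intro e
      apply hN'
      rw [LieSubmodule.eq_bot_iff] at e ⊢
      exact fun m hm => Subtype.ext (e _ ⟨m, hm, rfl⟩)
    have h3 := (hN.le_iff.1 h1).resolve_left h2
    rw [eq_top_iff]
    intro m _
    obtain ⟨m', hm', e⟩ : m.1 ∈ N'.map N.incl := h3.symm ▸ m.2
    exact (Subtype.ext e : m' = m) ▸ hm'
  · obtain ⟨m, hm⟩ := exists_ne (0 : N)
    exact hm (Subtype.ext (Subtype.ext (LinearMap.congr_fun e m)))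

theorem exists_proj {L : Type} [LieRing L] [LieAlgebra ℂ L] [Module.Finite ℂ L]
    [LieAlgebra.IsKilling ℂ L] (H : LieSubalgebra ℂ L) [H.IsCartanSubalgebra] :
    ∃ q : L →ₗ[ℂ] H, (∀ h : H, q h = h) ∧
      ∀ α : H → ℂ, α ≠ 0 → ∀ x ∈ LieAlgebra.rootSpace H α, q x = 0 := by
  refine ⟨(LieAlgebra.IsKilling.cartanEquivDual H).symm.toLinearMap ∘ₗ
    (killingForm ℂ L).compl₂ H.toSubmodule.subtype, fun h => ?_, fun α hα x hx => ?_⟩
  · exact (LinearEquiv.symm_apply_eq _).2 (LinearMap.ext fun y => rfl)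
  · refine (LinearEquiv.symm_apply_eq _).2 (LinearMap.ext fun y => ?_)
    rw [map_zero]
    exact LieAlgebra.killingForm_apply_eq_zero_of_mem_rootSpace_of_add_ne_zero ℂ L H hx
      (LieAlgebra.toLieSubmodule_le_rootSpace_zero ℂ L H y.2) (by simpa using hα)

theorem exists_dual (L : Type) [LieRing L] [LieAlgebra ℂ L] [Module.Finite ℂ L]
    [LieAlgebra.IsKilling ℂ L] : ∃ (n : ℕ) (b b' : Module.Basis (Fin n) ℂ L),
      ∀ i j, killingForm ℂ L (b i) (b' j) = if i = j then 1 else 0 :=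
  ⟨_, Module.finBasis ℂ L, (killingForm ℂ L).dualBasis
    (LieAlgebra.IsKilling.killingForm_nondegenerate ℂ L) (Module.finBasis ℂ L), fun i j =>
      LinearMap.BilinForm.apply_dualBasis_right _ ⟨kf_comm⟩ _ i j⟩

end Pool.Agent.H243Z.WC
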